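import Pool.Agent.H25.Tietze

set_option autoImplicit false

namespace Pool.Agent.Results.MP_b9ebd9_co.Tietze

open Pool.Agent.H25.Tietze

theorem result : ∃ G : SimpleGraph (Fin 12), ThreeConnected G ∧
    IsLeast (coverLengths G) 24 ∧ IsLeast (postmanLengths G) 24 ∧
    ∃ w : Sym2 (Fin 12) → ℕ, IsEulerianWeight G w ∧ ¬ HasCycleCover G w :=
  ⟨T, three, cover, postman, wt, eul, no_cover⟩

end Pool.Agent.Results.MP_b9ebd9_co.Tietze
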